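import Pool.Agent.W645.WV.Stm

/-! WV-REP: functions of `H a` as superpositions of Gaussians (adapted from
`Pool.Agent.W337.BE.Rep`). -/

set_option autoImplicit false

open MeasureTheory Set Complex Filter
open scoped ENNReal FourierTransform

namespace Pool.Agent.W701.WV

open Pool.Agent.W203.BE (T gn ga al S_BAS S_BASN S_MEAS S_CORE)
open Pool.Agent.W645.WV

theorem base_re (s : ℝ) : (1 + 2 * (Real.pi : ℂ) * s * I).re = 1 := by
  simp [mul_assoc]

theorem norm_e (t : ℝ) : ‖cexp (2 * (Real.pi : ℂ) * I * (t : ℂ))‖ = 1 := by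
  have : 2 * (Real.pi : ℂ) * I * (t : ℂ) = ((2 * Real.pi * t : ℝ) : ℂ) * I := by push_cast; ring
  rw [this, Complex.norm_exp_ofReal_mul_I]

theorem norm_e' (t : ℝ) : ‖cexp (-(2 * (Real.pi : ℂ) * I * (t : ℂ)))‖ = 1 := by
  have : -(2 * (Real.pi : ℂ) * I * (t : ℂ)) = ((-(2 * Real.pi * t) : ℝ) : ℂ) * I := by push_cast; ring
  rw [this, Complex.norm_exp_ofReal_mul_I]

theorem ft_norm {n : ℕ} (f : (Fin n → ℝ) → ℂ) (ξ : Fin n → ℝ) : ‖FT f ξ‖ ≤ ∫ y, ‖f y‖ := by
  unfold FT
  refine (norm_integral_le_integral_norm _).trans (le_of_eq ?_)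
  refine integral_congr_ae (Eventually.of_forall fun y => ?_)
  simp only [norm_mul, norm_e', one_mul]

theorem ft_meas {n : ℕ} (f : (Fin n → ℝ) → ℂ) (hf : Measurable f) : StronglyMeasurable (FT f) := by
  have h : Measurable (fun q : (Fin n → ℝ) × (Fin n → ℝ) =>
      cexp (-(2 * (Real.pi : ℂ) * I * ((∑ j, q.2 j * q.1 j : ℝ) : ℂ))) * f q.2) := by
    refine Measurable.mul ?_ (hf.comp measurable_snd)
    have : Continuous (fun q : (Fin n → ℝ) × (Fin n → ℝ) =>
      cexp (-(2 * (Real.pi : ℂ) * I * ((∑ j, q.2 j * q.1 j : ℝ) : ℂ)))) := by fun_prop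
    exact this.measurable
  exact h.stronglyMeasurable.integral_prod_right

theorem exp_H_int {n : ℕ} (a : Fin n → ℝ) (κ : ℝ) (hκ : 0 < κ) (ha : ∀ j, 0 < a j) :
    Integrable (fun ξ : Fin n → ℝ => Real.exp (-(κ * H a ξ))) := by
  have h : Integrable (fun ξ : Fin n → ℝ => ∏ j, Real.exp (-(κ * a j) * ξ j ^ 2)) := by
    refine Integrable.fintype_prod (f := fun j (t : ℝ) => Real.exp (-(κ * a j) * t ^ 2)) fun j => ?_
    exact integrable_exp_neg_mul_sq (mul_pos hκ (ha j))
  refine h.congr (Eventually.of_forall fun ξ => ?_)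
  simp only
  rw [← Real.exp_sum]
  congr 1
  unfold H
  rw [Finset.mul_sum, ← Finset.sum_neg_distrib]
  refine Finset.sum_congr rfl fun j _ => ?_
  ring

theorem ga_eq (κ a s : ℝ) : ga κ a s = (1 + 2 * (Real.pi : ℂ) * s * I) * ((κ * a : ℝ) : ℂ) := by
  apply Complex.ext
  · simp [ga]
  · simp [ga]
    ring

theorem th_rep {Θ : ℝ → ℂ} (hc : Continuous Θ) (hs : ∃ R : ℝ, ∀ y, Θ y ≠ 0 → |y| ≤ R)
    (hi : Integrable (MK Θ)) (y : ℝ) :
    Θ y = ∫ s : ℝ, MK Θ s * cexp (-((1 + 2 * (Real.pi : ℂ) * s * I) * (y : ℂ))) := by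
  obtain ⟨R, hR⟩ := hs
  set F : ℝ → ℂ := fun y => cexp (y : ℂ) * Θ y with hF
  have hFc : Continuous F := by
    have : Continuous fun y : ℝ => cexp (y : ℂ) := by fun_prop
    exact this.mul hc
  have hFs : HasCompactSupport F := by
    refine HasCompactSupport.intro (isCompact_Icc (a := -R) (b := R)) fun y hy => ?_
    by_contra h
    have h1 : Θ y ≠ 0 := fun h0 => h (by simp [hF, h0])
    exact hy (abs_le.1 (hR y h1))
  have hFi : Integrable F := hFc.integrable_of_hasCompactSupport hFs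
  have hMK : 𝓕⁻ F = MK Θ := by
    funext s
    rw [Real.fourierInv_eq']
    unfold MK
    refine integral_congr_ae (Eventually.of_forall fun y => ?_)
    simp only [smul_eq_mul, hF]
    rw [mul_comm]
    congr 2
    simp only [RCLike.inner_apply, conj_trivial]
    push_cast
    ring
  have hFF : Integrable (𝓕 F) := by
    have h1 : 𝓕 F = fun w => MK Θ (-w) := by
      funext w
      rw [← hMK, Real.fourierInv_eq_fourier_neg, neg_neg]
    rw [h1]
    exact hi.comp_neg
  have h2 := congrFun (hFc.fourier_fourierInv_eq hFi hFF) y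
  rw [hMK, Real.fourier_real_eq_integral_exp_smul] at h2
  have h3 : Θ y = cexp (-(y : ℂ)) * F y := by
    rw [hF]
    simp only
    rw [← mul_assoc, ← Complex.exp_add, neg_add_cancel, Complex.exp_zero, one_mul]
  rw [h3, ← h2, ← integral_const_mul]
  refine integral_congr_ae (Eventually.of_forall fun s => ?_)
  simp only [smul_eq_mul]
  rw [← mul_assoc, ← Complex.exp_add, mul_comm]
  congr 2
  push_cast
  ring

theorem rep : S_BASN → S_REP := by
  intro hB Θ hΘc hΘs hΘi n κ hκ0 f hf hfi a ha0 x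
  -- the integrand in the two variables
  let G : (Fin n → ℝ) → ℝ → ℂ := fun ξ s =>
    MK Θ s * cexp (-((1 + 2 * (Real.pi : ℂ) * s * I) * ((κ * H a ξ : ℝ) : ℂ))) * FT f ξ *
      cexp (2 * (Real.pi : ℂ) * I * ((∑ i, x i * ξ i : ℝ) : ℂ))
  -- step 1
  have h1 : IFT (fun ξ => Θ (κ * H a ξ) * FT f ξ) x = ∫ ξ : Fin n → ℝ, ∫ s : ℝ, G ξ s := by
    unfold IFT
    refine integral_congr_ae (Eventually.of_forall fun ξ => ?_)
    simp only [G]
    rw [integral_mul_const, integral_mul_const, ← th_rep hΘc hΘs hΘi]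
  -- integrability
  have hGi : Integrable (Function.uncurry G) (volume.prod volume) := by
    have hm : AEStronglyMeasurable (Function.uncurry G) (volume.prod volume) := by
      have m1 : AEStronglyMeasurable (fun q : (Fin n → ℝ) × ℝ => MK Θ q.2)
          (volume.prod volume) := hΘi.aestronglyMeasurable.comp_snd
      have m2 : StronglyMeasurable (fun q : (Fin n → ℝ) × ℝ =>
          cexp (-((1 + 2 * (Real.pi : ℂ) * q.2 * I) * ((κ * H a q.1 : ℝ) : ℂ)))) := by
        refine Continuous.stronglyMeasurable ?_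
        unfold H
        fun_prop
      have m3 : StronglyMeasurable (fun q : (Fin n → ℝ) × ℝ => FT f q.1) :=
        (ft_meas f hf).comp_measurable measurable_fst
      have m4 : StronglyMeasurable (fun q : (Fin n → ℝ) × ℝ =>
          cexp (2 * (Real.pi : ℂ) * I * ((∑ i, x i * q.1 i : ℝ) : ℂ))) := by
        refine Continuous.stronglyMeasurable ?_
        fun_prop
      exact ((m1.mul m2.aestronglyMeasurable).mul m3.aestronglyMeasurable).mul
        m4.aestronglyMeasurable
    have hd : Integrable (fun q : (Fin n → ℝ) × ℝ =>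
        ((∫ y, ‖f y‖) * Real.exp (-(κ * H a q.1))) * ‖MK Θ q.2‖) (volume.prod volume) :=
      Integrable.mul_prod ((exp_H_int a κ hκ0 ha0).const_mul _) hΘi.norm
    refine hd.mono' hm (Eventually.of_forall fun q => ?_)
    obtain ⟨ξ, s⟩ := q
    simp only [Function.uncurry, G]
    rw [norm_mul, norm_mul, norm_mul, norm_e, mul_one, Complex.norm_exp]
    have h3 : (-((1 + 2 * (Real.pi : ℂ) * s * I) * ((κ * H a ξ : ℝ) : ℂ))).re =
        -(κ * H a ξ) := by
      rw [Complex.neg_re, Complex.re_mul_ofReal, base_re]; ring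
    rw [h3]
    have h5 := ft_norm f ξ
    calc ‖MK Θ s‖ * Real.exp (-(κ * H a ξ)) * ‖FT f ξ‖
        ≤ ‖MK Θ s‖ * Real.exp (-(κ * H a ξ)) * ∫ y, ‖f y‖ := by gcongr
      _ = _ := by ring
  -- step 2
  have h2 : ∀ s : ℝ, ∫ ξ : Fin n → ℝ, G ξ s = MK Θ s * T (fun i => ga κ (a i) s) f x := by
    intro s
    have hre : ∀ i, 0 < (ga κ (a i) s).re := fun i => mul_pos hκ0 (ha0 i)
    rw [((hB n (fun i => ga κ (a i) s) hre).2.2.2.2 f hfi).2.2.2.1 x, ← integral_const_mul]
    refine integral_congr_ae (Eventually.of_forall fun ξ => ?_)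
    simp only [G]
    have h4 : ∑ i, ga κ (a i) s * (ξ i : ℂ) ^ 2 =
        (1 + 2 * (Real.pi : ℂ) * s * I) * ((κ * H a ξ : ℝ) : ℂ) := by
      unfold H
      push_cast
      rw [Finset.mul_sum, Finset.mul_sum]
      refine Finset.sum_congr rfl fun i _ => ?_
      rw [ga_eq]
      push_cast
      ring
    rw [h4]
    unfold FT
    ring
  rw [h1, integral_integral_swap hGi]
  refine integral_congr_ae (Eventually.of_forall fun s => ?_)
  simp only
  rw [h2]

end Pool.Agent.W701.WV
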